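import Pool.Agent.Helper15.RK.GoalsF

/-! # Project RK, packet FRA1: first step, Griffiths case -/

open Complex Metric Set Filter Topology MeasureTheory
open scoped ContDiff ComplexConjugate ComplexOrder Manifold Matrix

namespace Pool.Agent.Helper97.RK

open Pool.Agent.Helper95.Lin Pool.Agent.Helper16.Abund Pool.Agent.Helper92.Orb
  Pool.Agent.Helper10.SP Pool.Agent.Helper95.RK Pool.Agent.Helper15.RK

universe u v

section wcalc

variable {n k : ℕ} {W : Set (Cn n)}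

theorem cd_congr {f g : Cn n → ℂ} {x : Cn n} (h : f =ᶠ[𝓝 x] g) (l : Fin n) :
    cd l f x = cd l g x := by
  simp only [cd, h.fderiv_eq]

theorem cdb_congr {f g : Cn n → ℂ} {x : Cn n} (h : f =ᶠ[𝓝 x] g) (l : Fin n) :
    cdb l f x = cdb l g x := by
  simp only [cdb, h.fderiv_eq]

theorem cd_const (c : ℂ) (l : Fin n) (x : Cn n) : cd l (fun _ => c) x = 0 := by
  simp [cd]

theorem cdb_const (c : ℂ) (l : Fin n) (x : Cn n) : cdb l (fun _ => c) x = 0 := by
  simp [cdb]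

theorem dd_congr (hW : IsOpen W) (v : Fin k → Cn n → Cn n) {f g : Cn n → ℂ}
    (h : ∀ x ∈ W, f x = g x) {x : Cn n} (hx : x ∈ W) (α β : Fin k) :
    DD v α β f x = DD v α β g x := by
  have h1 : ∀ y ∈ W, Dvb (v β) f y = Dvb (v β) g y := by
    intro y hy
    have h2 : f =ᶠ[𝓝 y] g := by
      filter_upwards [hW.mem_nhds hy] with z hz using h z hz
    simp only [Dvb]
    exact Finset.sum_congr rfl fun j _ => by rw [cdb_congr h2]
  have h3 : Dvb (v β) f =ᶠ[𝓝 x] Dvb (v β) g := by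
    filter_upwards [hW.mem_nhds hx] with z hz using h1 z hz
  simp only [DD, Dv]
  exact Finset.sum_congr rfl fun j _ => by rw [cd_congr h3]

theorem sm_conj {f : Cn n → ℂ} (hf : ContDiffOn ℝ ∞ f W) :
    ContDiffOn ℝ ∞ (fun x => conj (f x)) W :=
  Complex.conjCLE.contDiff.comp_contDiffOn hf

theorem sm_dvb (hWIRT : S_WIRT) (hW : IsOpen W) {v : Cn n → Cn n} (hv : ContDiffOn ℝ ∞ v W)
    {f : Cn n → ℂ} (hf : ContDiffOn ℝ ∞ f W) : ContDiffOn ℝ ∞ (Dvb v f) W := by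
  have h := (hWIRT W hW f f hf hf).1
  have hvj : ∀ j, ContDiffOn ℝ ∞ (fun x => v x j) W := fun j => contDiffOn_pi.1 hv j
  unfold Dvb
  exact ContDiffOn.sum fun j _ => (sm_conj (hvj j)).mul (h j).2

theorem dd_add (hWIRT : S_WIRT) (hW : IsOpen W) {v : Fin k → Cn n → Cn n}
    (hv : ∀ α, ContDiffOn ℝ ∞ (v α) W) {f g : Cn n → ℂ} (hf : ContDiffOn ℝ ∞ f W)
    (hg : ContDiffOn ℝ ∞ g W) {x : Cn n} (hx : x ∈ W) (α β : Fin k) :
    DD v α β (fun y => f y + g y) x = DD v α β f x + DD v α β g x := by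
  have h1 : ∀ y ∈ W, Dvb (v β) (fun y => f y + g y) y = Dvb (v β) f y + Dvb (v β) g y := by
    intro y hy
    simp only [Dvb]
    rw [← Finset.sum_add_distrib]
    refine Finset.sum_congr rfl fun j _ => ?_
    rw [((hWIRT W hW f g hf hg).2.1 j y hy).2]
    ring
  have h3 : Dvb (v β) (fun y => f y + g y) =ᶠ[𝓝 x] fun y => Dvb (v β) f y + Dvb (v β) g y := by
    filter_upwards [hW.mem_nhds hx] with z hz using h1 z hz
  simp only [DD, Dv]
  rw [← Finset.sum_add_distrib]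
  refine Finset.sum_congr rfl fun j _ => ?_
  rw [cd_congr h3, ((hWIRT W hW _ _ (sm_dvb hWIRT hW (hv β) hf)
    (sm_dvb hWIRT hW (hv β) hg)).2.1 j x hx).1]
  ring

theorem dd_const (v : Fin k → Cn n → Cn n) (c : ℂ) (x : Cn n) (α β : Fin k) :
    DD v α β (fun _ => c) x = 0 := by
  have h : Dvb (v β) (fun _ : Cn n => c) = fun _ => 0 := by
    funext y
    simp [Dvb, cdb_const]
  simp only [DD, h, Dv, cd_const]
  simp

theorem sm_det {m : ℕ} {A : Cn n → Matrix (Fin m) (Fin m) ℂ}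
    (hA : ∀ i j, ContDiffOn ℝ ∞ (fun x => A x i j) W) :
    ContDiffOn ℝ ∞ (fun x => (A x).det) W := by
  simp only [Matrix.det_apply]
  refine ContDiffOn.sum fun σ _ => ?_
  refine ContDiffOn.const_smul _ ?_
  exact contDiffOn_prod fun i _ => hA _ _

theorem sm_logre {f : Cn n → ℂ} (hf : ContDiffOn ℝ ∞ f W) (hp : ∀ x ∈ W, 0 < (f x).re) :
    ContDiffOn ℝ ∞ (fun x => ((Real.log (f x).re : ℝ) : ℂ)) W := by
  have h1 : ContDiffOn ℝ ∞ (fun x => (f x).re) W := Complex.reCLM.contDiff.comp_contDiffOn hf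
  have h2 : ContDiffOn ℝ ∞ (fun x => Real.log (f x).re) W := h1.log fun x hx => (hp x hx).ne'
  exact Complex.ofRealCLM.contDiff.comp_contDiffOn h2

end wcalc

theorem psd_of_kfr (hLMF : S_LMF) {n : ℕ} {W : Set (Cn n)} (hW : IsOpen W) {Φ : Cn n → ℝ}
    (hΦ : ContDiffOn ℝ ∞ Φ W) (hp : ∀ x ∈ W, ∀ e, 0 ≤ lev Φ x e) {x : Cn n} (hx : x ∈ W) :
    (LM Φ x).PosSemidef := by
  obtain ⟨-, h2, h3, -⟩ := hLMF W hW Φ hΦ
  refine Matrix.PosSemidef.of_dotProduct_mulVec_nonneg (h2 x hx) fun y => ?_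
  have h4 := h3 x hx (fun i => conj (y i))
  have h5 : hermi (LM Φ x) (fun i => conj (y i)) (fun i => conj (y i)) =
      star y ⬝ᵥ (LM Φ x *ᵥ y) := by
    simp only [hermi, dotProduct, Matrix.mulVec, Finset.mul_sum, Pi.star_apply, RCLike.star_def]
    refine Finset.sum_congr rfl fun i _ => Finset.sum_congr rfl fun j _ => ?_
    simp only [Complex.conj_conj]
    ring
  rw [← h5, ← h4]
  exact_mod_cast hp x hx _

/-- The linear combination of the matrices `T_α`. -/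
noncomputable def Tc {n k : ℕ} (v : Fin k → Cn n → Cn n) (x : Cn n) (c : Cn k) :
    Matrix (Fin n) (Fin n) ℂ := ∑ α, c α • Tm (v α) x

theorem trace_Tc {n k : ℕ} (v : Fin k → Cn n → Cn n) (x : Cn n) (c : Cn k) :
    Matrix.trace (Tc v x c * mc (Tc v x c)) =
      ∑ α, ∑ β, Matrix.trace (Tm (v α) x * mc (Tm (v β) x)) * c α * conj (c β) := by
  have h1 : mc (Tc v x c) = ∑ β, conj (c β) • mc (Tm (v β) x) := by
    ext i j
    simp [mc, Tc, Matrix.sum_apply]
  rw [h1, Tc, Finset.sum_mul, Matrix.trace_sum]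
  refine Finset.sum_congr rfl fun α _ => ?_
  rw [Finset.mul_sum, Matrix.trace_sum]
  refine Finset.sum_congr rfl fun β _ => ?_
  rw [Matrix.smul_mul, Matrix.mul_smul, Matrix.trace_smul, Matrix.trace_smul, smul_eq_mul,
    smul_eq_mul]
  ring

theorem sum_im {ι : Type*} (s : Finset ι) (f : ι → ℂ) : (∑ i ∈ s, f i).im = ∑ i ∈ s, (f i).im :=
  map_sum Complex.imAddGroupHom f s

/-- The Levi matrix of `u` in a frame. -/
theorem lf_eq (hWIRT : S_WIRT) (hKFB : S_KFB) (hLDM : S_LDM) (hLDG : S_LDG) {b k : ℕ}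
    {Φ : Cn (b + k) → ℝ} {W : Set (Cn (b + k))} {L : Cn (b + k) →ₗ[ℂ] Cn k}
    {w : Fin b → Cn (b + k)} {v : Fin k → Cn (b + k) → Cn (b + k)} (hK : KFr Φ W L w v)
    {g : Cn (b + k) → Matrix (Fin (b + k)) (Fin (b + k)) ℂ}
    (hg : ∀ i j, ContDiffOn ℝ ∞ (fun x => g x i j) W) (hgp : ∀ x ∈ W, (g x).PosDef)
    {u : Cn (b + k) → ℝ} (hu : ContDiffOn ℝ ∞ u W) (huf : ∀ x ∈ W, u x = uf Φ g w v x)
    {x : Cn (b + k)} (hx : x ∈ W) (α β : Fin k) :
    LF v u x α β = Matrix.trace (Tm (v α) x * mc (Tm (v β) x)) -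
      ∑ γ, ∑ δ, (gram g v x)⁻¹ δ γ * CRV g v x α β γ δ := by
  obtain ⟨m1, m2, p1, p2, -, hG⟩ := hKFB hK
  obtain ⟨gs, gp⟩ := hG g hg
  have gp := gp hgp
  have hW := hK.isOpen
  -- the functions
  let lm : Cn (b + k) → ℂ := fun y => ((Real.log (mdet Φ w y).re : ℝ) : ℂ)
  let lg : Cn (b + k) → ℂ := fun y => ((Real.log (gram g v y).det.re : ℝ) : ℂ)
  let uc : Cn (b + k) → ℂ := fun y => ((u y : ℝ) : ℂ)
  let Φc : Cn (b + k) → ℂ := fun y => ((Φ y : ℝ) : ℂ)
  have slm : ContDiffOn ℝ ∞ lm W := sm_logre m2 fun y hy => (m1 y hy).2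
  have slg : ContDiffOn ℝ ∞ lg W := sm_logre (sm_det gs) fun y hy => (gp y hy).2.2
  have suc : ContDiffOn ℝ ∞ uc W := Complex.ofRealCLM.contDiff.comp_contDiffOn hu
  have sΦc : ContDiffOn ℝ ∞ Φc W := Complex.ofRealCLM.contDiff.comp_contDiffOn hK.smP
  let c₀ : ℂ := ((Real.log (‖(PM w fun α => v α x).det‖ ^ 2) : ℝ) : ℂ)
  have key : ∀ y ∈ W, uc y + Φc y + c₀ = lm y + lg y := by
    intro y hy
    have h1 := huf y hy
    have h2 : (PM w fun α => v α x).det = (PM w fun α => v α y).det := p2 x hx y hy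
    have h3 : 0 < ‖(PM w fun α => v α y).det‖ ^ 2 := by
      have := norm_pos_iff.2 (p1 y hy)
      positivity
    simp only [uc, Φc, c₀, lm, lg]
    rw [h1, h2, uf, dens, Real.log_div (mul_pos (m1 y hy).2 (gp y hy).2.2).ne' h3.ne',
      Real.log_mul (m1 y hy).2.ne' (gp y hy).2.2.ne']
    push_cast
    ring
  have e1 : DD v α β (fun y => uc y + Φc y + c₀) x = DD v α β uc x + DD v α β Φc x := by
    rw [dd_add hWIRT hW hK.smv (suc.add sΦc) contDiffOn_const hx, dd_const, add_zero,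
      dd_add hWIRT hW hK.smv suc sΦc hx]
  have e2 : DD v α β (fun y => uc y + Φc y + c₀) x = DD v α β lm x + DD v α β lg x := by
    rw [dd_congr hW v key hx, dd_add hWIRT hW hK.smv slm slg hx]
  have e3 := hLDM hK x hx α β
  have e4 := (hLDG hK g hg hgp x hx α β).2.2
  have e5 : DD v α β Φc x = 0 := e3.1
  have e6 : DD v α β lm x = Matrix.trace (Tm (v α) x * mc (Tm (v β) x)) := e3.2
  have e7 : DD v α β lg x = - ∑ γ, ∑ δ, (gram g v x)⁻¹ δ γ * CRV g v x α β γ δ := e4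
  have e8 : DD v α β uc x = DD v α β lm x + DD v α β lg x := by
    rw [← e2, e1, e5, add_zero]
  change DD v α β uc x = _
  rw [e8, e6, e7]
  ring

/-- The torsion part. -/
theorem tc_pos (hLMF : S_LMF) (hLAK : S_LAK) (hDERK : S_DERK) {b k : ℕ}
    {Φ : Cn (b + k) → ℝ} {W : Set (Cn (b + k))} {L : Cn (b + k) →ₗ[ℂ] Cn k}
    {w : Fin b → Cn (b + k)} {v : Fin k → Cn (b + k) → Cn (b + k)} (hK : KFr Φ W L w v)
    {x : Cn (b + k)} (hx : x ∈ W) (c : Cn k) :
    (Matrix.trace (Tc v x c * mc (Tc v x c))).im = 0 ∧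
      0 ≤ (Matrix.trace (Tc v x c * mc (Tc v x c))).re ∧
      (Matrix.trace (Tc v x c * mc (Tc v x c)) = 0 → Tc v x c = 0) := by
  obtain ⟨d1, -, -, -, -, -, d7⟩ := hDERK hK x hx
  have hW := hK.isOpen
  obtain ⟨-, l2, l3, -⟩ := hLMF W hW Φ hK.smP
  have honly : ∀ e : Cn (b + k), (∀ j, ∑ i, LM Φ x i j * e i = 0) → e = ∑ α, L e α • v α x := by
    intro e he
    refine hK.only x hx e ?_
    have h1 := l3 x hx e
    have h2 : hermi (LM Φ x) e e = 0 := by
      rw [hermi, Finset.sum_comm]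
      refine Finset.sum_eq_zero fun j _ => ?_
      rw [← Finset.sum_mul, he j, zero_mul]
    rw [h2] at h1
    exact_mod_cast h1
  refine (hLAK (LM Φ x) L (fun α => v α x) (psd_of_kfr hLMF hW hK.smP hK.psd hx)
    (hK.norm x hx) (hK.ker x hx) honly (Tc v x c) ?_ ?_).2
  · intro l
    have h1 : (fun i => Tc v x c i l) = ∑ α, c α • (fun i => Tm (v α) x i l) := by
      funext i
      simp [Tc, Matrix.sum_apply, Finset.sum_apply]
    rw [h1, map_sum]
    refine Finset.sum_eq_zero fun α _ => ?_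
    rw [map_smul, (d7 α l).1, smul_zero]
  · have h1 : (LM Φ x)ᵀ * Tc v x c = ∑ α, c α • ((LM Φ x)ᵀ * Tm (v α) x) := by
      rw [Tc, Finset.mul_sum]
      exact Finset.sum_congr rfl fun α _ => by rw [Matrix.mul_smul]
    rw [h1]
    unfold Matrix.IsSymm
    rw [Matrix.transpose_sum]
    refine Finset.sum_congr rfl fun α _ => ?_
    rw [Matrix.transpose_smul, (d1 α)]

theorem fra1 (hWIRT : S_WIRT) (hLMF : S_LMF) (hLAK : S_LAK) (hTRP : S_TRP) (hALGG : S_ALGG)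
    (hKFE : S_KFE) (hKFB : S_KFB) (hDERK : S_DERK) (hLDM : S_LDM) (hLDG : S_LDG) (hCVK : S_CVK)
    (hPUE : S_PUE.{u}) (hST1 : S_ST1.{u}) (hPOSK : S_POSK.{u}) (hUGL : S_UGL.{u}) :
    S_FRA1.{u} := by
  intro b k T G _ R H Φ g hF hC
  obtain ⟨u, hu, huf⟩ := hUGL hF
  obtain ⟨κ, hκ⟩ := hPUE T R hF.ket.et
  obtain ⟨F, hF0, hF1⟩ := hST1 hF κ hκ u hu
  have hT : IsOpen T := hF.ket.et.isOpen
  -- the facts in a frame
  have frame : ∀ (W : Set (Cn (b + k))) (L : Cn (b + k) →ₗ[ℂ] Cn k) (w : Fin b → Cn (b + k))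
      (v : Fin k → Cn (b + k) → Cn (b + k)), KFr Φ W L w v → W ⊆ T → ∀ x ∈ W,
      (∀ α β, LF v u x α β = Matrix.trace (Tm (v α) x * mc (Tm (v β) x)) -
        ∑ γ, ∑ δ, (gram g v x)⁻¹ δ γ * CRV g v x α β γ δ) ∧
      (∀ c : Cn k, (Matrix.trace (Tc v x c * mc (Tc v x c))).im = 0 ∧
        0 ≤ (Matrix.trace (Tc v x c * mc (Tc v x c))).re ∧
        (Matrix.trace (Tc v x c * mc (Tc v x c)) = 0 → Tc v x c = 0)) ∧
      (∀ c : Cn k, (hermi (Matrix.of fun α β => ∑ γ, ∑ δ, (gram g v x)⁻¹ δ γ *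
          CRV g v x α β γ δ) c c).im = 0 ∧
        (hermi (Matrix.of fun α β => ∑ γ, ∑ δ, (gram g v x)⁻¹ δ γ *
          CRV g v x α β γ δ) c c).re ≤ 0) ∧
      ((∀ α β, ∑ γ, ∑ δ, (gram g v x)⁻¹ δ γ * CRV g v x α β γ δ = 0) →
        ∀ α β γ δ, CRV g v x α β γ δ = 0) ∧
      (∀ c : Cn k, hermi (LF v u x) c c = Matrix.trace (Tc v x c * mc (Tc v x c)) -
        hermi (Matrix.of fun α β => ∑ γ, ∑ δ, (gram g v x)⁻¹ δ γ *
          CRV g v x α β γ δ) c c) ∧ 0 < dens Φ H w v x ∧ (gram H v x).PosDef := by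
    intro W L w v hK hWT x hx
    have hg : ∀ i j, ContDiffOn ℝ ∞ (fun x => g x i j) W := fun i j => (hF.smg i j).mono hWT
    have hgp : ∀ x ∈ W, (g x).PosDef := fun x hx => hF.posg x (hWT hx)
    have a1 := lf_eq hWIRT hKFB hLDM hLDG hK hg hgp (hu.1.mono hWT)
      (fun y hy => huf W L w v hK hWT y hy) hx
    obtain ⟨m1, m2, p1, p2, -, hGr⟩ := hKFB hK
    obtain ⟨gs, gp⟩ := hGr g hg
    obtain ⟨-, Hp⟩ := hGr H fun i j => (hF.ket.smooth i j).mono hWT
    have gp := gp hgp x hx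
    have Hp := Hp (fun x hx => hF.ket.posDef x (hWT hx)) x hx
    have hcv := (hCVK hK g hg hgp).1 (fun σ hσ y hy => hC σ hσ y (hWT hy)) x hx
    have hldg := hLDG hK g hg hgp x hx
    have halg := hALGG (gram g v x) (fun α γ δ => Dv (v α) (fun y => gram g v y γ δ) x)
      (fun α β γ δ => DD v α β (fun y => gram g v y γ δ) x) (CRV g v x) gp.1
      (fun α β γ δ => (hldg α β).2.1 γ δ) (fun α β γ δ => by
        rw [CRV]
        congr 1
        refine Finset.sum_congr rfl fun p _ => Finset.sum_congr rfl fun q _ => ?_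
        rw [(hldg α β).1 p δ]) (fun c s a => by
        have h1 := hcv c s a
        rw [Qcv] at h1
        have h2 : ∀ β γ δ, Dvb (v β) (fun y => gram g v y γ δ) x =
            conj (Dv (v β) (fun y => gram g v y δ γ) x) := fun β γ δ => (hldg β β).1 γ δ
        simp only [h2] at h1
        exact h1)
    refine ⟨a1, tc_pos hLMF hLAK hDERK hK hx, halg.1, halg.2, ?_, ?_, Hp.1⟩
    · intro c
      rw [trace_Tc]
      simp only [hermi, Matrix.of_apply]
      rw [← Finset.sum_sub_distrib]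
      refine Finset.sum_congr rfl fun α _ => ?_
      rw [← Finset.sum_sub_distrib]
      refine Finset.sum_congr rfl fun β _ => ?_
      rw [a1 α β]
      ring
    · rw [dens]
      have h3 := norm_pos_iff.2 (p1 x hx)
      exact div_pos (mul_pos (m1 x hx).2 Hp.2.2) (by positivity)
  have hmn : ∀ (W : Set (Cn (b + k))) (L : Cn (b + k) →ₗ[ℂ] Cn k) (w : Fin b → Cn (b + k))
      (v : Fin k → Cn (b + k) → Cn (b + k)), KFr Φ W L w v → W ⊆ T → ∀ x ∈ W,
      0 ≤ (Matrix.trace ((gram H v x)⁻¹ * LF v u x)).re ∧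
      ((Matrix.trace ((gram H v x)⁻¹ * LF v u x)).re = 0 → LF v u x = 0) := by
    intro W L w v hK hWT x hx
    obtain ⟨a1, a2, a3, -, a5, -, a7⟩ := frame W L w v hK hWT x hx
    refine (hTRP (gram H v x) (LF v u x) a7 fun c => ?_).2
    rw [a5 c, Complex.sub_im, Complex.sub_re, (a2 c).1, (a3 c).1]
    refine ⟨sub_self _, ?_⟩
    have := (a2 c).2.1
    have := (a3 c).2
    linarith
  -- `F` is nonnegative
  have hFn : ∀ x ∈ T, 0 ≤ F x := by
    intro x hx
    obtain ⟨W', L, w, v, hW'T, hxW', hK⟩ := hKFE T hT Φ hF.smP hF.rank x hx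
    rw [hF1 W' L w v hK hW'T x hxW']
    exact mul_nonneg (frame W' L w v hK hW'T x hxW').2.2.2.2.2.1.le
      (hmn W' L w v hK hW'T x hxW').1
  have hFz := hPOSK hF.ket.et κ hκ F hF0 hFn
  intro W L w v hK hWT x hx
  obtain ⟨a1, a2, a3, a4, a5, a6, a7⟩ := frame W L w v hK hWT x hx
  have h1 := hF1 W L w v hK hWT x hx
  rw [hFz x (hWT hx)] at h1
  have h2 : (Matrix.trace ((gram H v x)⁻¹ * LF v u x)).re = 0 := by
    rcases mul_eq_zero.1 h1.symm with h | h
    · exact absurd h a6.ne'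
    · exact h
  have h3 := (hmn W L w v hK hWT x hx).2 h2
  have hT0 : ∀ α, Tm (v α) x = 0 := by
    intro α
    have h4 := a5 (Pi.single α 1)
    rw [h3] at h4
    have h5 : hermi (0 : Matrix (Fin k) (Fin k) ℂ) (Pi.single α 1) (Pi.single α 1) = 0 := by
      simp [hermi]
    rw [h5] at h4
    have b2 := a2 (Pi.single α 1)
    have b3 := a3 (Pi.single α 1)
    have h6 := congrArg Complex.re h4
    rw [Complex.zero_re, Complex.sub_re] at h6
    have h7 : Matrix.trace (Tc v x (Pi.single α 1) * mc (Tc v x (Pi.single α 1))) = 0 := by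
      apply Complex.ext
      · rw [Complex.zero_re]
        linarith [b2.2.1, b3.2]
      · rw [Complex.zero_im]
        exact b2.1
    have h8 := b2.2.2 h7
    have h9 : Tc v x (Pi.single α 1) = Tm (v α) x := by
      rw [Tc, Finset.sum_eq_single α]
      · simp
      · intro β _ hβ
        simp [hβ]
      · intro h
        exact absurd (Finset.mem_univ α) h
    rw [← h9]
    exact h8
  refine ⟨hT0, a4 fun α β => ?_⟩
  have h10 := a1 α β
  rw [h3, hT0 α, Matrix.zero_apply, Matrix.zero_mul, Matrix.trace_zero, zero_sub] at h10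
  exact neg_eq_zero.1 h10.symm

end Pool.Agent.Helper97.RK
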