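import Pool.Agent.Helper97.RK.FRA1

/-! # Project RK, packet UGL: the global function -/

open Complex Metric Set Filter Topology MeasureTheory
open scoped ContDiff ComplexConjugate ComplexOrder Manifold Matrix

namespace Pool.Agent.Helper97.RK

open Pool.Agent.Helper95.Lin Pool.Agent.Helper16.Abund Pool.Agent.Helper92.Orb
  Pool.Agent.Helper10.SP Pool.Agent.Helper95.RK Pool.Agent.Helper15.RK

universe u v

theorem det_mat {n : ℕ} (D : Cn n →L[ℂ] Cn n) :
    D.det = (Matrix.of fun i j => D (Pi.single j 1) i).det := by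
  rw [ContinuousLinearMap.det, ← LinearMap.det_toMatrix']
  congr 1

theorem hermi_single {n : ℕ} (A : Matrix (Fin n) (Fin n) ℂ) (i j : Fin n) :
    hermi A (Pi.single i 1) (Pi.single j 1) = A i j := by
  rw [hermi, Finset.sum_eq_single i, Finset.sum_eq_single j]
  · simp
  · intro l _ hl
    simp [hl]
  · intro h
    exact absurd (Finset.mem_univ j) h
  · intro l _ hl
    refine Finset.sum_eq_zero fun m _ => ?_
    simp [hl]
  · intro h
    exact absurd (Finset.mem_univ i) h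

/-- Transformation of determinants. -/
theorem det_trans {n : ℕ} (A B : Matrix (Fin n) (Fin n) ℂ) (D : Cn n →L[ℂ] Cn n)
    (h : ∀ u v, hermi B (D u) (D v) = hermi A u v) : A.det = B.det * ((‖D.det‖ ^ 2 : ℝ) : ℂ) := by
  let M : Matrix (Fin n) (Fin n) ℂ := Matrix.of fun i j => D (Pi.single j 1) i
  have h1 : A = Mᵀ * B * M.map (starRingEnd ℂ) := by
    ext i j
    rw [← hermi_single A i j, ← h]
    simp only [hermi, Matrix.mul_apply, Matrix.transpose_apply, Matrix.map_apply, M,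
      Matrix.of_apply, Finset.sum_mul]
    rw [Finset.sum_comm]
    refine Finset.sum_congr rfl fun p _ => Finset.sum_congr rfl fun q _ => ?_
    ring
  have h2 : (M.map (starRingEnd ℂ)).det = conj M.det := by
    rw [RingHom.map_det]
    rfl
  rw [h1, Matrix.det_mul, Matrix.det_mul, Matrix.det_transpose, h2, det_mat D]
  have h3 : M.det * conj M.det = ((‖M.det‖ ^ 2 : ℝ) : ℂ) := by
    rw [Complex.mul_conj, Complex.normSq_eq_norm_sq]
  rw [← h3]
  ring

/-- The limit in a frame. -/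
theorem lim_frame (hLMF : S_LMF) (hLIMK : S_LIMK) (hKFB : S_KFB) {b k : ℕ}
    {Φ : Cn (b + k) → ℝ} {W : Set (Cn (b + k))} {L : Cn (b + k) →ₗ[ℂ] Cn k}
    {w : Fin b → Cn (b + k)} {v : Fin k → Cn (b + k) → Cn (b + k)} (hK : KFr Φ W L w v)
    {g : Cn (b + k) → Matrix (Fin (b + k)) (Fin (b + k)) ℂ}
    (hg : ∀ i j, ContDiffOn ℝ ∞ (fun x => g x i j) W) (hgp : ∀ x ∈ W, (g x).PosDef)
    {x : Cn (b + k)} (hx : x ∈ W) :
    0 < dens Φ g w v x ∧ Tendsto (fun s : ℝ => (g x + (s : ℂ) • LM Φ x).det / (s : ℂ) ^ b) atTop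
      (𝓝 ((dens Φ g w v x : ℝ) : ℂ)) := by
  obtain ⟨m1, m2, p1, p2, -, hG⟩ := hKFB hK
  obtain ⟨gs, gp⟩ := hG g hg
  have gp := gp hgp x hx
  obtain ⟨-, l2, l3, -⟩ := hLMF W hK.isOpen Φ hK.smP
  have honly : ∀ e, hermi (LM Φ x) e e = 0 → e = ∑ α, L e α • v α x := by
    intro e he
    refine hK.only x hx e ?_
    have h1 := l3 x hx e
    rw [he] at h1
    exact_mod_cast h1
  have h := (hLIMK (g x) (LM Φ x) L w (fun α => v α x) (hgp x hx)
    (psd_of_kfr hLMF hK.isOpen hK.smP hK.psd hx) (hK.norm x hx) (hK.ker x hx) honly hK.lin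
    hK.Lw).2.2.2.1
  constructor
  · rw [dens]
    have h3 := norm_pos_iff.2 (p1 x hx)
    exact div_pos (mul_pos (m1 x hx).2 gp.2.2) (by positivity)
  · have e1 : ((dens Φ g w v x : ℝ) : ℂ) =
        (Matrix.of fun i j : Fin b => hermi (LM Φ x) (w i) (w j)).det *
        (Matrix.of fun α β : Fin k => hermi (g x) (v α x) (v β x)).det /
        ((‖(PM w fun α => v α x).det‖ ^ 2 : ℝ) : ℂ) := by
      have e2 : (Matrix.of fun i j : Fin b => hermi (LM Φ x) (w i) (w j)).det =
          (((mdet Φ w x).re : ℝ) : ℂ) := by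
        apply Complex.ext
        · rw [Complex.ofReal_re]
          rfl
        · rw [Complex.ofReal_im]
          exact (m1 x hx).1
      have e3 : (Matrix.of fun α β : Fin k => hermi (g x) (v α x) (v β x)).det =
          (((gram g v x).det.re : ℝ) : ℂ) := by
        apply Complex.ext
        · rw [Complex.ofReal_re]
          rfl
        · rw [Complex.ofReal_im]
          exact gp.2.1
      rw [e2, e3, dens]
      push_cast
      ring
    rw [e1]
    exact h

theorem ugl (hLMF : S_LMF) (hLIMK : S_LIMK) (hKFE : S_KFE) (hKFB : S_KFB) (hKES : S_KES.{u}) :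
    S_UGL.{u} := by
  intro b k T G _ R H Φ g hF
  have hT : IsOpen T := hF.ket.et.isOpen
  have hex : ∀ x ∈ T, ∃ d : ℝ, 0 < d ∧
      Tendsto (fun s : ℝ => (g x + (s : ℂ) • LM Φ x).det / (s : ℂ) ^ b) atTop
        (𝓝 ((d : ℝ) : ℂ)) := by
    intro x hx
    obtain ⟨W', L, w, v, hW'T, hxW', hK⟩ := hKFE T hT Φ hF.smP hF.rank x hx
    exact ⟨_, lim_frame hLMF hLIMK hKFB hK (fun i j => (hF.smg i j).mono hW'T)
      (fun y hy => hF.posg y (hW'T hy)) hxW'⟩
  choose! d hd0 hd using hex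
  have hfr : ∀ (W : Set (Cn (b + k))) (L : Cn (b + k) →ₗ[ℂ] Cn k) (w : Fin b → Cn (b + k))
      (v : Fin k → Cn (b + k) → Cn (b + k)), KFr Φ W L w v → W ⊆ T → ∀ x ∈ W,
      d x = dens Φ g w v x := by
    intro W L w v hK hWT x hx
    have h1 := (lim_frame hLMF hLIMK hKFB hK (fun i j => (hF.smg i j).mono hWT)
      (fun y hy => hF.posg y (hWT hy)) hx).2
    have h2 := tendsto_nhds_unique (hd x (hWT hx)) h1
    exact_mod_cast h2
  refine ⟨fun x => Real.log (d x) - Φ x, ⟨?_, ?_⟩, ?_⟩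
  · -- smoothness
    intro x hx
    obtain ⟨W', L, w, v, hW'T, hxW', hK⟩ := hKFE T hT Φ hF.smP hF.rank x hx
    obtain ⟨m1, m2, p1, p2, -, hG⟩ := hKFB hK
    obtain ⟨gs, gp⟩ := hG g fun i j => (hF.smg i j).mono hW'T
    have gp := gp fun y hy => hF.posg y (hW'T hy)
    have s1 : ContDiffOn ℝ ∞ (fun y => (mdet Φ w y).re) W' :=
      Complex.reCLM.contDiff.comp_contDiffOn m2
    have s2 : ContDiffOn ℝ ∞ (fun y => (gram g v y).det.re) W' :=
      Complex.reCLM.contDiff.comp_contDiffOn (sm_det gs)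
    have hc : 0 < ‖(PM w fun α => v α x).det‖ ^ 2 := by
      have := norm_pos_iff.2 (p1 x hxW')
      positivity
    have s3 : ContDiffOn ℝ ∞ (fun y => Real.log ((mdet Φ w y).re * (gram g v y).det.re /
        ‖(PM w fun α => v α x).det‖ ^ 2) - Φ y) W' := by
      refine ContDiffOn.sub ?_ hK.smP
      refine ContDiffOn.log ((s1.mul s2).div_const _) fun y hy => ?_
      exact (div_pos (mul_pos (m1 y hy).2 (gp y hy).2.2) hc).ne'
    have s4 : ContDiffOn ℝ ∞ (fun y => Real.log (d y) - Φ y) W' := by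
      refine s3.congr fun y hy => ?_
      rw [hfr W' L w v hK hW'T y hy, dens, p2 x hxW' y hy]
    exact ((s4 x hxW').contDiffAt (hK.isOpen.mem_nhds hxW')).contDiffWithinAt
  · -- invariance
    intro γ x y hR
    obtain ⟨τ, U, V, hU, hV, hxU, hyV, hUT, hVT, hτd, -, hτm, hdet, hiff⟩ :=
      hF.ket.et.loc γ x y hR
    have hyτ : y = τ x := (hiff x hxU y hyV).1 hR
    have hArr : Arr R U τ := ⟨hU, hτd, γ, fun x' hx' => (hiff x' hx' _ (hτm hx')).2 rfl⟩
    have hxT := hUT hxU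
    have hyT := hVT hyV
    rw [hyτ] at hyT ⊢
    have h1 : ∀ s : ℝ, (g x + (s : ℂ) • LM Φ x).det =
        (g (τ x) + (s : ℂ) • LM Φ (τ x)).det * ((‖(fderiv ℂ τ x).det‖ ^ 2 : ℝ) : ℂ) := by
      intro s
      refine det_trans _ _ (fderiv ℂ τ x) fun e e' => ?_
      have h2 := hF.ginv U τ hArr x hxU e e'
      have h3 := (hKES hF).2 U τ hArr x hxU e e'
      have h4 : ∀ (A B : Matrix (Fin (b + k)) (Fin (b + k)) ℂ) (a a' : Cn (b + k)),
          hermi (A + (s : ℂ) • B) a a' = hermi A a a' + s * hermi B a a' := by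
        intro A B a a'
        simp only [hermi, Finset.mul_sum, ← Finset.sum_add_distrib]
        refine Finset.sum_congr rfl fun i _ => Finset.sum_congr rfl fun j _ => ?_
        simp only [Matrix.add_apply, Matrix.smul_apply, smul_eq_mul]
        ring
      rw [h4, h4, h2, h3]
    have h5 := (hd (τ x) hyT).mul_const ((‖(fderiv ℂ τ x).det‖ ^ 2 : ℝ) : ℂ)
    have h6 : (fun s : ℝ => (g (τ x) + (s : ℂ) • LM Φ (τ x)).det / (s : ℂ) ^ b *
        ((‖(fderiv ℂ τ x).det‖ ^ 2 : ℝ) : ℂ)) =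
        fun s : ℝ => (g x + (s : ℂ) • LM Φ x).det / (s : ℂ) ^ b := by
      funext s
      rw [h1 s]
      ring
    rw [h6] at h5
    have h7 := tendsto_nhds_unique (hd x hxT) h5
    have h8 : d x = d (τ x) * ‖(fderiv ℂ τ x).det‖ ^ 2 := by exact_mod_cast h7
    have h9 := hF.pot U τ hArr x hxU
    have h10 : 0 < ‖(fderiv ℂ τ x).det‖ ^ 2 := by
      have := norm_pos_iff.2 (hdet x hxU)
      positivity
    change Real.log (d (τ x)) - Φ (τ x) = Real.log (d x) - Φ x
    rw [h8, Real.log_mul (hd0 _ hyT).ne' h10.ne', h9]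
    ring
  · intro W L w v hK hWT x hx
    change Real.log (d x) - Φ x = uf Φ g w v x
    rw [hfr W L w v hK hWT x hx, uf]

end Pool.Agent.Helper97.RK
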