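import Pool.Agent.Helper10.RK.GoalsK
import Pool.Agent.Helper16.RK.TriMap

/-! # Project RK, packet FCONK: holomorphic sections are constant on the fibres -/

open Complex Metric Set Filter Topology MeasureTheory
open scoped ContDiff ComplexConjugate ComplexOrder Manifold Matrix

namespace Pool.Agent.Helper97.RK

open Pool.Agent.Helper95.Lin Pool.Agent.Helper16.Abund Pool.Agent.Helper92.Orb
open Pool.Agent.Helper10.SP Pool.Agent.Helper95.RK Pool.Agent.Helper16.RK

universe u

/-- An entire function on `ℂᵏ` with `2k` real-independent periods is constant. -/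
theorem const_of_periods {k : ℕ} {f : Cn k → ℂ} (hf : Differentiable ℂ f) (q : Fin (2 * k) → Cn k)
    (hq : LinearIndependent ℝ q) (hper : ∀ j w, f (w + q j) = f w) (w w' : Cn k) :
    f w = f w' := by
  have hfin : Module.finrank ℝ (Cn k) = 2 * k := by
    have h := finrank_real_of_complex (Cn k)
    rw [h]
    simp [Cn]
  rcases Nat.eq_zero_or_pos k with hk | hk
  · subst hk
    rw [Subsingleton.elim w w']
  have : Nonempty (Fin (2 * k)) := ⟨⟨0, by omega⟩⟩
  let B : Module.Basis (Fin (2 * k)) ℝ (Cn k) :=
    basisOfLinearIndependentOfCardEqFinrank hq (by rw [Fintype.card_fin, hfin])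
  have hB : ∀ j, B j = q j := fun j => by
    simp [B, coe_basisOfLinearIndependentOfCardEqFinrank]
  have hspan : ∀ v ∈ Submodule.span ℤ (range B), ∀ w, f (w + v) = f w := by
    intro v hv
    refine Submodule.span_induction (p := fun v _ => ∀ w, f (w + v) = f w) ?_ ?_ ?_ ?_ hv
    · rintro _ ⟨j, rfl⟩ w
      rw [hB, hper]
    · intro w
      rw [add_zero]
    · intro x y _ _ hx hy w
      rw [← add_assoc, hy, hx]
    · intro n x _ hx w
      induction n using Int.induction_on generalizing w with
      | zero => simp
      | succ n ih =>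
        rw [add_smul, one_smul, ← add_assoc, hx, ih]
      | pred n ih =>
        have h := ih w
        have h2 : w + (-(n : ℤ)) • x = w + (-(n : ℤ) - 1) • x + x := by
          rw [sub_smul, one_smul]
          abel
        rw [h2, hx] at h
        exact h
  have hbd : Bornology.IsBounded (range f) := by
    have h1 : Bornology.IsBounded (closure (ZSpan.fundamentalDomain B)) :=
      (ZSpan.fundamentalDomain_isBounded B).closure
    have h2 : IsCompact (closure (ZSpan.fundamentalDomain B)) :=
      Metric.isCompact_of_isClosed_isBounded isClosed_closure h1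
    refine (h2.image hf.continuous).isBounded.subset ?_
    rintro _ ⟨w, rfl⟩
    refine ⟨ZSpan.fract B w, subset_closure (ZSpan.fract_mem_fundamentalDomain B w), ?_⟩
    have h3 : ZSpan.fract B w + (ZSpan.floor B w : Cn k) = w := by
      rw [ZSpan.fract_apply]
      abel
    have h4 := hspan _ (ZSpan.floor B w).2 (ZSpan.fract B w)
    rw [h3] at h4
    exact h4.symm
  exact hf.apply_eq_apply_of_bounded hbd w w'

theorem fconk (hFIBT : Pool.Agent.Helper10.RK.S_FIBTK) : Pool.Agent.Helper10.RK.S_FCONK.{u} := by
  intro b k N G _ c R Rel P Φ Hf C H hF hD M g hg hgh z hz w w'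
  obtain ⟨i, hi⟩ := mem_iUnion.1 hz
  obtain ⟨t, h1, h12, hli⟩ := hFIBT c R P Φ Hf C hF.fol hD i z hi
  have hsub : ball (c i) 2 ⊆ ball (c i) 4 := ball_subset_ball (by norm_num)
  have hsub2 : ball (c i) 2 ⊆ Bd c 2 := subset_iUnion (fun i => ball (c i) 2) i
  -- the period property
  have key : ∀ t : TriK b k, BigK c P i t → (∀ y ∈ ball (c i) 4, t.g y = y ∧ t.A y = 1) →
      ∀ w : Cn k, g (ptK z (w + t.β z)) = g (ptK z w) := by
    intro t ht hid w
    have hP : P (ball (c i) 2) t := hF.fol.mono _ _ _ ht.1 isOpen_ball hsub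
    have hhol : t.HolOn (ball (c i) 2) := (hF.fol.holo _ _ hP).2.2.1
    have hmaps : MapsTo t.g (ball (c i) 2) (Bd c 2) := by
      intro y hy
      rw [(hid y (hsub hy)).1]
      exact hsub2 hy
    obtain ⟨γ, hγ⟩ := hF.ofP _ _ hP hsub2 hmaps
    have harr : Arr Rel (tubeK k (ball (c i) 2)) t.map := by
      refine ⟨isOpen_tubeK isOpen_ball, ?_, γ, ?_⟩
      · intro x hx
        exact (triMap_diff t isOpen_ball hhol x hx).differentiableWithinAt
      · intro x hx
        have := hγ (base x) hx (fib x)
        rwa [ptK_base_fib] at this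
    have hx : ptK z w ∈ tubeK k (ball (c i) 2) := by
      change base (ptK z w) ∈ ball (c i) 2
      rw [base_ptK]
      exact hi
    have hs := hg.2 _ _ harr _ hx
    have hdet : (fderiv ℂ t.map (ptK z w)).det = 1 := by
      rw [triMap_det t isOpen_ball hhol _ hx, base_ptK, (hid z (hsub hi)).2, Matrix.det_one,
        mul_one]
      have he : t.g =ᶠ[𝓝 z] id := by
        filter_upwards [isOpen_ball.mem_nhds (hsub hi)] with y hy
        exact (hid y hy).1
      rw [he.fderiv_eq, fderiv_id]
      exact LinearMap.det_id
    have hm : t.map (ptK z w) = ptK z (w + t.β z) := by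
      simp only [TriK.map, TriK.ap, base_ptK, fib_ptK, (hid z (hsub hi)).1, (hid z (hsub hi)).2,
        Matrix.one_mulVec]
    rw [hdet, one_pow, mul_one, hm] at hs
    exact hs.symm
  have hent : Differentiable ℂ fun w : Cn k => g (ptK z w) := by
    intro w
    have hx : ptK z w ∈ tubeK k (Bd c 2) := by
      change base (ptK z w) ∈ Bd c 2
      rw [base_ptK]
      exact hz
    have hop : IsOpen (tubeK k (Bd c 2)) := isOpen_tubeK (isOpen_iUnion fun _ => isOpen_ball)
    have h1 : DifferentiableAt ℂ g (ptK z w) := (hgh _ hx).differentiableAt (hop.mem_nhds hx)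
    have h2 : DifferentiableAt ℂ (fun w : Cn k => ptK z w) w :=
      (ptL b k).differentiableAt.comp w ((differentiableAt_const z).prodMk differentiableAt_id)
    exact h1.comp w h2
  exact const_of_periods hent (fun j => (t j).β z) hli
    (fun j w => key (t j) (h1 j) (h12 j) w) w w'

end Pool.Agent.Helper97.RK
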